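import Mathlib
import Pool.Agent.Helper18.SG.Goals

set_option autoImplicit false

namespace Pool.Agent.Helper37.SG

open Finset Pool.Agent.Helper18.SG

theorem nv_un (R ν t : ℕ) (ht : t < R) : nv R ν (R - 1) R t = ν - (R - 1 - t) := by
  unfold nv
  split_ifs <;> omega

theorem nv_lt (R ν s z t y : ℕ) (ht : t < y) (hs : s = y + 1) :
    nv R ν s z t = ν - (R - 1 - t) := by
  unfold nv
  split_ifs <;> omega

theorem nv_eq (R ν s z y : ℕ) (hs : s = y + 1) :
    nv R ν s z y = ν - (z - (y + 1)) := by
  unfold nv
  split_ifs <;> omega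

theorem nv_top (R ν s z y : ℕ) (hs : s = y + 1) (hz : y + 2 ≤ z) :
    nv R ν s z (y + 1) = ν := by
  unfold nv
  split_ifs <;> omega

theorem goalG9 : GoalG9 := by
  intro R N ν y a n u1 u2 s z hy hun hn hN h1 h2
  have hS : ∀ c, ns y a n s c = if a ≤ c ∧ c < a + n then y + 1 else s c := fun c => rfl
  have hZ : ∀ c, nz R y a u1 u2 ν z c = if c = a then y + 1 + min (ν a) (R - 1 - y) - u1
      else if c = a + 1 then y + 1 + min (ν (a + 1)) (R - 1 - y) - u2 else z c := fun c => rfl
  refine ⟨?_, ?_, ?_⟩
  · intro t ht
    unfold Lo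
    refine sum_congr rfl (fun c _ => ?_)
    by_cases hc : a ≤ c ∧ c < a + n
    · have e1 : ns y a n s c = y + 1 := by rw [hS, if_pos hc]
      rw [nv_lt R (ν c) _ _ t y ht e1, (hun c hc.1).1, (hun c hc.1).2, nv_un R (ν c) t (by omega)]
    · have e1 : ns y a n s c = s c := by rw [hS, if_neg hc]
      have e2 : nz R y a u1 u2 ν z c = z c := by
        rw [hZ, if_neg (by omega), if_neg (by omega)]
      rw [e1, e2]
  · have key : ∀ c, nv R (ν c) (ns y a n s c) (nz R y a u1 u2 ν z c) y =
        nv R (ν c) (s c) (z c) y + (if c = a then u1 else 0) + (if c = a + 1 then u2 else 0) := by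
      intro c
      by_cases hc : a ≤ c ∧ c < a + n
      · have e1 : ns y a n s c = y + 1 := by rw [hS, if_pos hc]
        rw [nv_eq R (ν c) _ _ y e1, (hun c hc.1).1, (hun c hc.1).2, nv_un R (ν c) y (by omega), hZ]
        by_cases ha : c = a
        · subst ha
          rw [if_pos rfl, if_pos rfl, if_neg (by omega)]
          rcases le_total (ν c) (R - 1 - y) with h | h
          · rw [min_eq_left h] at h1 ⊢
            omega
          · rw [min_eq_right h] at h1 ⊢
            omega
        · by_cases ha1 : c = a + 1
          · subst ha1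
            rw [if_neg (by omega), if_pos rfl, if_neg (by omega), if_pos rfl]
            rcases le_total (ν (a + 1)) (R - 1 - y) with h | h
            · rw [min_eq_left h] at h2 ⊢
              omega
            · rw [min_eq_right h] at h2 ⊢
              omega
          · rw [if_neg ha, if_neg ha1, if_neg ha, if_neg ha1, (hun c hc.1).2]
            omega
      · have e1 : ns y a n s c = s c := by rw [hS, if_neg hc]
        have e2 : nz R y a u1 u2 ν z c = z c := by
          rw [hZ, if_neg (by omega), if_neg (by omega)]
        rw [e1, e2, if_neg (by omega), if_neg (by omega), Nat.add_zero]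
    unfold Lo
    rw [sum_congr rfl (fun c _ => key c), sum_add_distrib, sum_add_distrib,
      sum_ite_eq', sum_ite_eq', if_pos (mem_range.2 (by omega)), if_pos (mem_range.2 (by omega))]
  · have key : ∀ c, nv R (ν c) (ns y a n s c) (nz R y a u1 u2 ν z c) (y + 1) =
        nv R (ν c) (s c) (z c) (y + 1) +
          (if a ≤ c ∧ c < a + n then min (ν c) (R - 2 - y) else 0) := by
      intro c
      by_cases hc : a ≤ c ∧ c < a + n
      · have e1 : ns y a n s c = y + 1 := by rw [hS, if_pos hc]
        have e2 : y + 2 ≤ nz R y a u1 u2 ν z c := by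
          rw [hZ]
          split_ifs with q1 q2
          · omega
          · omega
          · rw [(hun c hc.1).2]; omega
        rw [nv_top R (ν c) _ _ y e1 e2, (hun c hc.1).1, (hun c hc.1).2,
          nv_un R (ν c) (y + 1) (by omega), if_pos hc]
        omega
      · have e1 : ns y a n s c = s c := by rw [hS, if_neg hc]
        have e2 : nz R y a u1 u2 ν z c = z c := by
          rw [hZ, if_neg (by omega), if_neg (by omega)]
        rw [e1, e2, if_neg hc]; rfl
    unfold Lo
    rw [sum_congr rfl (fun c _ => key c), sum_add_distrib, ← sum_filter]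
    congr 1
    have e : (range N).filter (fun c => a ≤ c ∧ c < a + n) = Ico a (a + n) := by
      ext c
      simp only [mem_filter, mem_range, mem_Ico]
      omega
    rw [e, sum_Ico_eq_sum_range]
    simp

end Pool.Agent.Helper37.SG
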