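import Pool.Agent.Helper52.SG.Goals

/-!
# Project SG (MP_0a002a_al), packet FINQ
-/

set_option autoImplicit false

namespace Pool.Agent.Helper37.SG.FINQ

open Subgroup Pool.H83Shunkov Pool.Agent.Helper29.SH Pool.Agent.Helper52.SG

theorem t : S_FINQ := by
  classical
  intro E _ S hS hPF hyp
  choose! M' F' hn hfi hFM hnorm hloc hcomm using hyp
  have hn' : ∀ s : S, (M' s).Normal := fun s => hn s s.2
  have hfi' : ∀ s : S, (M' s).FiniteIndex := fun s => hfi s s.2
  obtain ⟨M, hM⟩ : ∃ M : Subgroup E, M = ⨅ s : S, M' s := ⟨_, rfl⟩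
  have hMn : M.Normal := by
    rw [hM]
    exact normal_iInf_normal hn'
  have hMf : M.FiniteIndex := by
    rw [hM]
    exact finiteIndex_iInf hfi'
  have hMle : ∀ s ∈ S, M ≤ M' s := by
    intro s hs
    rw [hM]
    exact iInf_le (fun s : S => M' s) ⟨s, hs⟩
  let L : Subgroup E := (lfRad M).map M.subtype
  have hLn : L.Normal := inferInstanceAs ((lfRad M).map M.subtype).Normal
  have hLloc : IsLocFin L := isLocFin_lfRad.map M.subtype
  have hFL : ∀ s ∈ S, ∀ x ∈ F' s, x ∈ M → x ∈ L := by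
    intro s hs x hx hxM
    let N : Subgroup M := (F' s).comap M.subtype
    have hN : N.Normal := by
      refine ⟨fun n hnn g => ?_⟩
      have h1 := hnorm s hs (g⁻¹ : M) (hMle s hs (g⁻¹ : M).2) (n : E) hnn
      show ((g * n * g⁻¹ : M) : E) ∈ F' s
      have e : ((g * n * g⁻¹ : M) : E) = ((g⁻¹ : M) : E)⁻¹ * (n : E) * ((g⁻¹ : M) : E) := by
        simp
      rw [e]
      exact h1
    have hNl : IsLocFin N := (hloc s hs).comap_of_injective _ M.subtype_injective
    exact ⟨⟨x, hxM⟩, le_lfRad hNl hx, rfl⟩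
  let q : E →* E ⧸ L := QuotientGroup.mk' L
  have hq : Function.Surjective q := QuotientGroup.mk'_surjective L
  have hqS : closure (q '' (S : Set E)) = ⊤ := by
    rw [← MonoidHom.map_closure, hS, ← MonoidHom.range_eq_map, MonoidHom.range_eq_top.2 hq]
  have hcom : ∀ g ∈ M, ∀ s ∈ S, q g * q s = q s * q g := by
    intro g hg s hs
    have h1 : s⁻¹ * (g⁻¹ * s * g) ∈ L :=
      hFL s hs _ (hcomm s hs g (hMle s hs hg)) (comm_mem s hg)
    have h2 : q (s⁻¹ * (g⁻¹ * s * g)) = 1 := (QuotientGroup.eq_one_iff _).2 h1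
    rw [map_mul, map_mul, map_mul, map_inv, map_inv, inv_mul_eq_one, mul_assoc] at h2
    exact (eq_inv_mul_iff_mul_eq.1 h2)
  have hcent : ∀ g ∈ M, ∀ x : E ⧸ L, q g * x = x * q g := by
    intro g hg x
    have h1 : closure (q '' (S : Set E)) ≤ centralizer ({q g} : Set (E ⧸ L)) := by
      rw [closure_le]
      rintro _ ⟨s, hs, rfl⟩
      rw [SetLike.mem_coe, mem_centralizer_singleton_iff]
      exact (hcom g hg s hs).symm
    have h2 : x ∈ centralizer ({q g} : Set (E ⧸ L)) := h1 (by rw [hqS]; trivial)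
    rw [mem_centralizer_singleton_iff] at h2
    exact h2.symm
  have hMbn : (M.map q).Normal := Normal.map hMn q hq
  have hg1 : Good (M.map q) := by
    apply good_abelian
    rintro ⟨_, ⟨g, hg, rfl⟩⟩ y
    apply Subtype.ext
    exact hcent g hg y
  have hMbf : (M.map q).FiniteIndex := by
    refine ⟨?_⟩
    intro h0
    have h1 := M.index_map_dvd hq
    rw [h0] at h1
    exact hMf.index_ne_zero (Nat.eq_zero_of_zero_dvd h1)
  have hg2 : Good ((E ⧸ L) ⧸ (M.map q)) := by
    have : Finite ((E ⧸ L) ⧸ (M.map q)) := finiteIndex_iff_finite_quotient.1 hMbf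
    exact good_finite _
  have hX : X (E ⧸ L) := (good_extension (E ⧸ L) (M.map q) hg1 hg2).X
  have htop : (⊤ : Subgroup (E ⧸ L)) ≤ lfRad (E ⧸ L) := by
    rw [← hqS, closure_le]
    rintro _ ⟨s, hs, rfl⟩
    exact hX _ ((hPF s hs).map q hq)
  have h1 : IsLocFin (⊤ : Subgroup E) := by
    apply IsLocFin.of_map_quotient L hLloc
    exact isLocFin_lfRad.mono (le_top.trans htop)
  have h2 : ((⊤ : Subgroup E) : Set E).Finite := h1.finite_of_fg ⟨S, hS⟩
  rw [coe_top] at h2
  exact Set.finite_univ_iff.1 h2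

end Pool.Agent.Helper37.SG.FINQ
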