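import Pool.Agent.Helper52.SG.Goals3

/-!
# Project SG (MP_0a002a_al), packet MET: the metabelian case
-/

set_option autoImplicit false

namespace Pool.Agent.Helper37.SG.MET

open Pool.Agent.Helper52.SG
open scoped Pointwise

variable {N : Type} [LieRing N]

/-- left-normed brackets -/
def lb (z : N) : List N → N
  | [] => z
  | y :: l => lb ⁅z, y⁆ l

theorem lb_append (z : N) (l l' : List N) : lb z (l ++ l') = lb (lb z l) l' := by
  induction l generalizing z with
  | nil => rfl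
  | cons y l ih => exact ih _

theorem lb_sub (a b : N) (l : List N) : lb (a - b) l = lb a l - lb b l := by
  induction l generalizing a b with
  | nil => rfl
  | cons y l ih =>
    show lb ⁅a - b, y⁆ l = lb ⁅a, y⁆ l - lb ⁅b, y⁆ l
    rw [sub_lie, ih]

theorem lb_zero (l : List N) : lb (0 : N) l = 0 := by
  induction l with
  | nil => rfl
  | cons y l ih =>
    show lb ⁅(0 : N), y⁆ l = 0
    rw [zero_lie, ih]

theorem lb_concat (z y : N) (l : List N) : lb z (l ++ [y]) = ⁅lb z l, y⁆ := by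
  rw [lb_append]
  rfl

theorem lie_mem_I (a b : N) : ⁅a, b⁆ ∈ (br ⊤ ⊤ : AddSubgroup N) :=
  mem_br (AddSubgroup.mem_top a) (AddSubgroup.mem_top b)

theorem ideal_I2 {x : N} (hx : x ∈ br (br ⊤ ⊤ : AddSubgroup N) (br ⊤ ⊤)) (z : N) :
    ⁅x, z⁆ ∈ br (br ⊤ ⊤ : AddSubgroup N) (br ⊤ ⊤) := by
  induction hx using AddSubgroup.closure_induction with
  | mem x hx =>
    obtain ⟨a, ha, b, hb, rfl⟩ := hx
    have e : ⁅⁅a, b⁆, z⁆ = ⁅⁅a, z⁆, b⁆ + ⁅a, ⁅b, z⁆⁆ := by
      have h1 := leibniz_lie a b z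
      have h2 : ⁅b, ⁅a, z⁆⁆ = -⁅⁅a, z⁆, b⁆ := (lie_skew _ _).symm
      rw [h1, h2]
      abel
    rw [e]
    exact add_mem (mem_br (lie_mem_I _ _) hb) (mem_br ha (lie_mem_I _ _))
  | zero => rw [zero_lie]; exact zero_mem _
  | add x y _ _ hx hy => rw [add_lie]; exact add_mem hx hy
  | neg x _ hx => rw [neg_lie]; exact neg_mem hx

theorem lb_mem_I2 {z : N} (hz : z ∈ br (br ⊤ ⊤ : AddSubgroup N) (br ⊤ ⊤)) (l : List N) :
    lb z l ∈ br (br ⊤ ⊤ : AddSubgroup N) (br ⊤ ⊤) := by
  induction l generalizing z with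
  | nil => exact hz
  | cons y l ih => exact ih (ideal_I2 hz y)

theorem lb_perm {l l' : List N} (h : l.Perm l') {z : N} (hz : z ∈ (br ⊤ ⊤ : AddSubgroup N)) :
    lb z l - lb z l' ∈ br (br ⊤ ⊤ : AddSubgroup N) (br ⊤ ⊤) := by
  induction h generalizing z with
  | nil => rw [sub_self]; exact zero_mem _
  | cons x _ ih => exact ih (lie_mem_I z x)
  | swap x y l =>
    show lb ⁅⁅z, y⁆, x⁆ l - lb ⁅⁅z, x⁆, y⁆ l ∈ _
    rw [← lb_sub]
    apply lb_mem_I2
    have e : ⁅⁅z, y⁆, x⁆ - ⁅⁅z, x⁆, y⁆ = ⁅z, ⁅y, x⁆⁆ := by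
      have h1 := leibniz_lie z y x
      have h2 : ⁅y, ⁅z, x⁆⁆ = -⁅⁅z, x⁆, y⁆ := (lie_skew _ _).symm
      rw [h1, h2]
      abel
    rw [e]
    exact mem_br hz (lie_mem_I y x)
  | trans _ _ ih1 ih2 =>
    have := add_mem (ih1 hz) (ih2 hz)
    rwa [sub_add_sub_cancel] at this

theorem lb_grade {p : ℕ} {W : ZMod p → AddSubgroup N} (hW : GrF W) (l : List (N × ZMod p))
    (hl : ∀ q ∈ l, q.1 ∈ W q.2) {i : ZMod p} {z : N} (hz : z ∈ W i) :
    lb z (l.map Prod.fst) ∈ W (i + (l.map Prod.snd).sum) := by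
  induction l generalizing z i with
  | nil =>
    rw [List.map_nil, List.map_nil, List.sum_nil, add_zero]
    exact hz
  | cons q l ih =>
    rw [List.map_cons, List.map_cons, List.sum_cons, ← add_assoc]
    exact ih (fun q hq => hl q (List.mem_cons_of_mem _ hq))
      (hW.mul _ _ _ hz _ (hl q List.mem_cons_self))

/-- the subset sums -/
def ss {p : ℕ} : List (ZMod p) → Finset (ZMod p)
  | [] => {0}
  | b :: l => {0, b} + ss l

theorem ss_nonempty {p : ℕ} (l : List (ZMod p)) : (ss l).Nonempty := by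
  cases l with
  | nil => exact Finset.singleton_nonempty _
  | cons b l => exact (Finset.insert_nonempty _ _).add (ss_nonempty l)

theorem card_ss {p : ℕ} (hp : p.Prime) (l : List (ZMod p)) (hl : ∀ b ∈ l, b ≠ 0) :
    min p (l.length + 1) ≤ (ss l).card := by
  induction l with
  | nil =>
    show min p (0 + 1) ≤ ({0} : Finset (ZMod p)).card
    rw [Finset.card_singleton]
    exact min_le_right _ _
  | cons b l ih =>
    have h1 := ih fun c hc => hl c (List.mem_cons_of_mem _ hc)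
    have hb : b ≠ 0 := hl b List.mem_cons_self
    have h2 := ZMod.cauchy_davenport hp (Finset.insert_nonempty (0 : ZMod p) {b}) (ss_nonempty l)
    have h3 : (insert (0 : ZMod p) {b} : Finset (ZMod p)).card = 2 :=
      Finset.card_pair hb.symm
    rw [h3] at h2
    show min p (l.length + 1 + 1) ≤ (({0, b} : Finset (ZMod p)) + ss l).card
    refine le_trans ?_ h2
    omega

omit [LieRing N] in
theorem mem_ss {p : ℕ} (l : List (N × ZMod p)) (c : ZMod p) (hc : c ∈ ss (l.map Prod.snd)) :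
    ∃ l1 l2 : List (N × ZMod p), l.Perm (l1 ++ l2) ∧ (l1.map Prod.snd).sum = c := by
  induction l generalizing c with
  | nil =>
    have : c = 0 := Finset.mem_singleton.1 hc
    exact ⟨[], [], List.Perm.refl _, by simp [this]⟩
  | cons q l ih =>
    have h1 : c ∈ ({0, q.2} : Finset (ZMod p)) + ss (l.map Prod.snd) := hc
    obtain ⟨x, hx, y, hy, rfl⟩ := Finset.mem_add.1 h1
    obtain ⟨l1, l2, h2, h3⟩ := ih y hy
    rcases Finset.mem_insert.1 hx with rfl | hx
    · refine ⟨l1, q :: l2, ?_, by rw [h3, zero_add]⟩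
      exact (h2.cons q).trans List.perm_middle.symm
    · rw [Finset.mem_singleton] at hx
      refine ⟨q :: l1, l2, h2.cons q, ?_⟩
      rw [List.map_cons, List.sum_cons, h3, hx]

theorem lb_eq_zero {l : List N} (h : (0 : N) ∈ l) (z : N) : lb z l = 0 := by
  induction l generalizing z with
  | nil => simp at h
  | cons y l ih =>
    rcases List.mem_cons.1 h with h | h
    · show lb ⁅z, y⁆ l = 0
      rw [← h, lie_zero, lb_zero]
    · exact ih h _

/-- the key -/
theorem key {p : ℕ} (hp : p.Prime) {W : ZMod p → AddSubgroup N} (hW : GrF W)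
    (l : List (N × ZMod p)) (hl : ∀ q ∈ l, q.1 ∈ W q.2) (hn : l.length = p - 1) {i : ZMod p}
    {z : N} (hz : z ∈ W i) (hzI : z ∈ (br ⊤ ⊤ : AddSubgroup N)) :
    lb z (l.map Prod.fst) ∈ br (br ⊤ ⊤ : AddSubgroup N) (br ⊤ ⊤) := by
  by_cases h0 : ∃ q ∈ l, q.2 = 0
  · obtain ⟨q, hq, hq0⟩ := h0
    have h1 := hl q hq
    rw [hq0, hW.zero, AddSubgroup.mem_bot] at h1
    rw [lb_eq_zero]
    · exact zero_mem _
    · rw [← h1]
      exact List.mem_map_of_mem hq
  · have hb : ∀ b ∈ l.map Prod.snd, b ≠ 0 := by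
      intro b hb hb0
      obtain ⟨q, hq, rfl⟩ := List.mem_map.1 hb
      exact h0 ⟨q, hq, hb0⟩
    have h1 := card_ss hp _ hb
    have : Fact p.Prime := ⟨hp⟩
    have h2 : ss (l.map Prod.snd) = Finset.univ := by
      apply Finset.eq_univ_of_card
      rw [ZMod.card]
      apply le_antisymm
      · calc (ss (l.map Prod.snd)).card ≤ Fintype.card (ZMod p) := Finset.card_le_univ _
          _ = p := ZMod.card p
      · refine le_trans ?_ h1
        rw [List.length_map, hn]
        have := hp.pos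
        rw [Nat.sub_add_cancel hp.one_lt.le, min_self]
    obtain ⟨l1, l2, h3, h4⟩ := mem_ss l (-i) (by rw [h2]; exact Finset.mem_univ _)
    have h5 := lb_perm (h3.map Prod.fst) hzI
    have h6 : lb z (l1.map Prod.fst) = 0 := by
      have h7 := lb_grade hW l1 (fun q hq => hl q (h3.mem_iff.2 (List.mem_append_left _ hq))) hz
      rw [h4, add_neg_cancel, hW.zero, AddSubgroup.mem_bot] at h7
      exact h7
    rw [List.map_append, lb_append, h6, lb_zero, sub_zero] at h5
    exact h5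

theorem bil (S T : Set N) (C : AddSubgroup N) (h : ∀ s ∈ S, ∀ t ∈ T, ⁅s, t⁆ ∈ C) :
    ∀ a ∈ AddSubgroup.closure S, ∀ b ∈ AddSubgroup.closure T, ⁅a, b⁆ ∈ C := by
  intro a ha b hb
  induction ha using AddSubgroup.closure_induction with
  | mem s hs =>
    induction hb using AddSubgroup.closure_induction with
    | mem t ht => exact h s hs t ht
    | zero => rw [lie_zero]; exact zero_mem _
    | add x y _ _ hx hy => rw [lie_add]; exact add_mem hx hy
    | neg x _ hx => rw [lie_neg]; exact neg_mem hx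
  | zero => rw [zero_lie]; exact zero_mem _
  | add x y _ _ hx hy => rw [add_lie]; exact add_mem hx hy
  | neg x _ hx => rw [neg_lie]; exact neg_mem hx

/-- the generators of `AI I n` -/
def Gn {p : ℕ} (W : ZMod p → AddSubgroup N) (n : ℕ) : Set N :=
  {x | ∃ (i j : ZMod p) (u v : N) (l : List (N × ZMod p)), u ∈ W i ∧ v ∈ W j ∧
    (∀ q ∈ l, q.1 ∈ W q.2) ∧ l.length = n ∧ x = lb ⁅u, v⁆ (l.map Prod.fst)}

theorem AI_le {p : ℕ} {W : ZMod p → AddSubgroup N} (hT : (⨆ i, W i) = ⊤) (n : ℕ) :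
    AI (br ⊤ ⊤ : AddSubgroup N) n ≤ AddSubgroup.closure (Gn W n) := by
  have hT' : (⊤ : AddSubgroup N) = AddSubgroup.closure (⋃ i, (W i : Set N)) := by
    rw [← hT, AddSubgroup.iSup_eq_closure]
  induction n with
  | zero =>
    show br ⊤ ⊤ ≤ _
    apply br_le
    intro a ha b hb
    rw [hT'] at ha hb
    refine bil _ _ _ ?_ a ha b hb
    intro u hu v hv
    obtain ⟨i, hi⟩ := Set.mem_iUnion.1 hu
    obtain ⟨j, hj⟩ := Set.mem_iUnion.1 hv
    exact AddSubgroup.subset_closure ⟨i, j, u, v, [], hi, hj, by simp, rfl, rfl⟩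
  | succ n ih =>
    show br (AI (br ⊤ ⊤) n) ⊤ ≤ _
    apply br_le
    intro a ha b hb
    rw [hT'] at hb
    refine bil _ _ _ ?_ a (ih ha) b hb
    intro x hx y hy
    obtain ⟨i, j, u, v, l, hu, hv, hl, hln, rfl⟩ := hx
    obtain ⟨c, hc⟩ := Set.mem_iUnion.1 hy
    refine AddSubgroup.subset_closure ⟨i, j, u, v, l ++ [(y, c)], hu, hv, ?_, ?_, ?_⟩
    · intro q hq
      rcases List.mem_append.1 hq with hq | hq
      · exact hl q hq
      · rw [List.mem_singleton] at hq
        rw [hq]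
        exact hc
    · rw [List.length_append, hln]
      rfl
    · rw [List.map_append, List.map_cons, List.map_nil, lb_concat]

theorem t : S_MET := by
  intro p hp N _ W hW hT
  refine (AI_le hT (p - 1)).trans ?_
  rw [AddSubgroup.closure_le]
  rintro x ⟨i, j, u, v, l, hu, hv, hl, hln, rfl⟩
  exact key hp.out hW l hl hln (hW.mul i j u hu v hv) (lie_mem_I u v)

end Pool.Agent.Helper37.SG.MET
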